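import Mathlib

/-!
# The structure `(ℝ, <, +, ·|(0,1)², ℤ)` and its definable functions
-/

namespace Pool.Agent.H323.Semi

/-- First-order formulas in the language of the structure `(ℝ, <, +, ·|(0,1)², ℤ)`, with
variables `x_0, x_1, …`. -/
inductive Fm : Type
  | lt (i j : ℕ) : Fm
  | eq (i j : ℕ) : Fm
  | add (i j k : ℕ) : Fm
  | mul (i j k : ℕ) : Fm
  | int (i : ℕ) : Fm
  | not (φ : Fm) : Fm
  | and (φ ψ : Fm) : Fm
  | ex (i : ℕ) (φ : Fm) : Fm

/-- Satisfaction of a formula under an assignment of reals to the variables. -/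
def Sat : Fm → (ℕ → ℝ) → Prop
  | .lt i j, v => v i < v j
  | .eq i j, v => v i = v j
  | .add i j k, v => v i + v j = v k
  | .mul i j k, v => 0 < v i ∧ v i < 1 ∧ 0 < v j ∧ v j < 1 ∧ v i * v j = v k
  | .int i, v => ∃ n : ℤ, v i = n
  | .not φ, v => ¬ Sat φ v
  | .and φ ψ, v => Sat φ v ∧ Sat ψ v
  | .ex i φ, v => ∃ t : ℝ, Sat φ (Function.update v i t)

/-- `f` is definable with real parameters: its graph is defined by a formula in `x_0`, `x_1`, the
other variables being interpreted by the parameters. -/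
def DefinableFun (f : ℝ → ℝ) : Prop :=
  ∃ (φ : Fm) (v : ℕ → ℝ), ∀ x y : ℝ,
    f x = y ↔ Sat φ (Function.update (Function.update v 0 x) 1 y)

end Pool.Agent.H323.Semi
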