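import Mathlib

/-!
# Quasi-analyticity of smooth locally algebraic functions of one real variable
-/

namespace Pool.Agent.H323.Semi

open Polynomial Filter Topology
open scoped ContDiff

/-- value of a bivariate polynomial -/
noncomputable def ev (Q : ℝ[X][X]) (x y : ℝ) : ℝ := Q.eval₂ (Polynomial.evalRingHom x) y

lemma ev_mul (P Q : ℝ[X][X]) (x y : ℝ) : ev (P * Q) x y = ev P x y * ev Q x y := by
  simp [ev, Polynomial.eval₂_mul]

lemma ev_prod {α : Type*} (s : Finset α) (P : α → ℝ[X][X]) (x y : ℝ) :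
    ev (∏ a ∈ s, P a) x y = ∏ a ∈ s, ev (P a) x y := by
  classical
  induction s using Finset.induction_on with
  | empty => simp [ev]
  | insert a s ha ih => rw [Finset.prod_insert ha, Finset.prod_insert ha, ev_mul, ih]

lemma ev_sum (Q : ℝ[X][X]) (x y : ℝ) :
    ev Q x y = ∑ i ∈ Finset.range (Q.natDegree + 1), (Q.coeff i).eval x * y ^ i := by
  rw [ev, Polynomial.eval₂_eq_sum_range]
  rfl

/-- `h` is algebraic on `J` -/
def AlgOn (J : Set ℝ) (h : ℝ → ℝ) : Prop := ∃ Q : ℝ[X][X], Q ≠ 0 ∧ ∀ x ∈ J, ev Q x (h x) = 0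

lemma AlgOn.mono {J J' : Set ℝ} {h : ℝ → ℝ} (H : AlgOn J h) (hJ : J' ⊆ J) : AlgOn J' h := by
  obtain ⟨Q, hQ, hx⟩ := H
  exact ⟨Q, hQ, fun x hx' => hx x (hJ hx')⟩

/-- polynomial functions on `J` -/
noncomputable def phi (J : Set ℝ) : ℝ[X] →+* (J → ℝ) :=
  RingHom.pi fun x : J => Polynomial.evalRingHom x.1

lemma eval₂_phi (J : Set ℝ) (Q : ℝ[X][X]) (a : J → ℝ) (x : J) :
    (Q.eval₂ (phi J) a) x = ev Q x (a x) := by
  have := Polynomial.hom_eval₂ Q (phi J) (Pi.evalRingHom (fun _ : J => ℝ) x) a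
  simp only [Pi.evalRingHom_apply] at this
  rw [this]
  rfl

lemma algOn_iff (J : Set ℝ) (h : ℝ → ℝ) :
    AlgOn J h ↔ @IsAlgebraic ℝ[X] (J → ℝ) _ _ (phi J).toAlgebra (fun x : J => h x) := by
  let _ := (phi J).toAlgebra
  constructor
  · rintro ⟨Q, hQ, hx⟩
    refine ⟨Q, hQ, ?_⟩
    funext x
    exact (eval₂_phi J Q _ x).trans (hx x.1 x.2)
  · rintro ⟨Q, hQ, hx⟩
    refine ⟨Q, hQ, fun x hxJ => ?_⟩
    have := congrFun hx ⟨x, hxJ⟩
    exact (eval₂_phi J Q _ ⟨x, hxJ⟩).symm.trans this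

lemma AlgOn.sub {J : Set ℝ} {g h : ℝ → ℝ} (hg : AlgOn J g) (hh : AlgOn J h) :
    AlgOn J (fun x => g x - h x) := by
  let _ := (phi J).toAlgebra
  rw [algOn_iff] at hg hh ⊢
  exact hg.sub hh

lemma AlgOn.poly (J : Set ℝ) (p : ℝ[X]) : AlgOn J (fun x => p.eval x) := by
  let _ := (phi J).toAlgebra
  rw [algOn_iff]
  exact isAlgebraic_algebraMap p

lemma AlgOn.ev {J : Set ℝ} {g : ℝ → ℝ} (hg : AlgOn J g) (Q : ℝ[X][X]) :
    AlgOn J (fun x => ev Q x (g x)) := by
  let _ := (phi J).toAlgebra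
  rw [algOn_iff] at hg ⊢
  have h1 : (fun x : J => Semi.ev Q x (g x)) = aeval (fun x : J => g x) Q := by
    funext x
    show _ = (Q.eval₂ (phi J) (fun x : J => g x)) x
    exact (eval₂_phi J Q (fun x : J => g x) x).symm
  rw [h1]
  have h2 : aeval (fun x : J => g x) Q ∈ Algebra.adjoin ℝ[X] {(fun x : J => g x)} :=
    aeval_mem_adjoin_singleton _ _
  have h3 : Algebra.adjoin ℝ[X] {(fun x : J => g x)} ≤ Subalgebra.algebraicClosure ℝ[X] (J → ℝ) := by
    rw [Algebra.adjoin_le_iff]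
    rintro _ rfl
    exact hg
  exact h3 h2

/-- smooth functions vanishing near a sequence tending to `x₀` are flat at `x₀` -/
lemma flat (x₀ : ℝ) : ∀ (n : ℕ) (φ : ℝ → ℝ), ContDiff ℝ ∞ φ →
    x₀ ∈ closure (interior {x | φ x = 0}) →
    ∃ C δ : ℝ, 0 < δ ∧ ∀ x, |x - x₀| < δ → |φ x| ≤ C * |x - x₀| ^ n := by
  intro n
  induction n with
  | zero =>
    intro φ hφ _
    have hc := (hφ.continuous.continuousAt (x := x₀))
    rw [Metric.continuousAt_iff] at hc
    obtain ⟨δ, hδ, h⟩ := hc 1 one_pos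
    refine ⟨|φ x₀| + 1, δ, hδ, fun x hx => ?_⟩
    have h1 := h (x := x) (by rwa [Real.dist_eq])
    rw [Real.dist_eq] at h1
    have h2 := abs_sub_abs_le_abs_sub (φ x) (φ x₀)
    simp only [pow_zero, mul_one]
    linarith
  | succ n ih =>
    intro φ hφ h0
    rw [contDiff_infty_iff_deriv] at hφ
    have hsub : interior {x | φ x = 0} ⊆ interior {x | deriv φ x = 0} := by
      refine interior_maximal (fun x hx => ?_) isOpen_interior
      have : φ =ᶠ[𝓝 x] fun _ => 0 := by
        filter_upwards [isOpen_interior.mem_nhds hx] with y hy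
        have h9 : y ∈ {x | φ x = 0} := interior_subset hy
        exact h9
      show deriv φ x = 0
      rw [this.deriv_eq]
      simp
    obtain ⟨C, δ, hδ, h⟩ := ih (deriv φ) hφ.2 (closure_mono hsub h0)
    have hx0 : φ x₀ = 0 := by
      have hcl : IsClosed {x | φ x = 0} := isClosed_eq hφ.1.continuous continuous_const
      exact (closure_minimal interior_subset hcl) h0
    refine ⟨C, δ, hδ, fun x hx => ?_⟩
    have key := Convex.norm_image_sub_le_of_norm_deriv_le (f := φ) (C := C * |x - x₀| ^ n)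
      (s := Metric.closedBall x₀ |x - x₀|) (x := x₀) (y := x)
      (fun y _ => hφ.1 y) (fun y hy => ?_) (convex_closedBall _ _)
      (Metric.mem_closedBall_self (abs_nonneg _)) (by rw [Metric.mem_closedBall, Real.dist_eq])
    · rw [hx0, sub_zero, Real.norm_eq_abs, Real.norm_eq_abs] at key
      rw [pow_succ, ← mul_assoc]
      exact key
    · rw [Metric.mem_closedBall, Real.dist_eq] at hy
      rw [Real.norm_eq_abs]
      have h1 := h y (lt_of_le_of_lt hy hx)
      have hC : |deriv φ y| ≤ C * |y - x₀| ^ n := h1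
      by_cases hC0 : 0 ≤ C
      · exact hC.trans (mul_le_mul_of_nonneg_left (pow_le_pow_left₀ (abs_nonneg _) hy n) hC0)
      · exfalso
        push Not at hC0
        have h2 := h (x₀ + δ / 2) (by rw [add_sub_cancel_left, abs_of_pos (by linarith)]; linarith)
        have h3 : 0 < |x₀ + δ / 2 - x₀| ^ n := by
          rw [add_sub_cancel_left, abs_of_pos (by linarith)]
          positivity
        have h4 := abs_nonneg (deriv φ (x₀ + δ / 2))
        nlinarith

/-- quasi-analyticity -/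
theorem qa {h : ℝ → ℝ} (hs : ContDiff ℝ ∞ h) (ha : ∀ a b : ℝ, AlgOn (Set.Ioo a b) h)
    {u v : ℝ} (huv : u < v) (h0 : ∀ x ∈ Set.Ioo u v, h x = 0) : ∀ x, h x = 0 := by
  set Z := interior {x | h x = 0} with hZ
  have hopen : IsOpen Z := isOpen_interior
  have hne : Z.Nonempty := by
    refine ⟨(u + v) / 2, interior_maximal (fun x hx => h0 x hx) isOpen_Ioo ?_⟩
    constructor <;> linarith
  have hclosed : IsClosed Z := by
    rw [← closure_subset_iff_isClosed]
    intro x₀ hx₀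
    have hx0 : h x₀ = 0 := by
      have hcl : IsClosed {x | h x = 0} := isClosed_eq hs.continuous continuous_const
      exact (closure_minimal interior_subset hcl) hx₀
    obtain ⟨Q, hQ, hQx⟩ := ha (x₀ - 1) (x₀ + 1)
    obtain ⟨Q₁, hQ₁, hnd⟩ := Polynomial.exists_eq_pow_rootMultiplicity_mul_and_not_dvd Q hQ 0
    rw [map_zero, sub_zero] at hQ₁ hnd
    set m := Polynomial.rootMultiplicity 0 Q
    rw [Polynomial.X_dvd_iff] at hnd
    obtain ⟨b, hb, hbd⟩ :=
      Polynomial.exists_eq_pow_rootMultiplicity_mul_and_not_dvd (Q₁.coeff 0) hnd x₀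
    set N := Polynomial.rootMultiplicity x₀ (Q₁.coeff 0)
    rw [Polynomial.dvd_iff_isRoot, Polynomial.IsRoot.def] at hbd
    obtain ⟨C, δ, hδ, hfl⟩ := flat x₀ (N + 1) h hs hx₀
    set R : ℝ → ℝ := fun x => ev Q₁.divX x (h x) with hR
    have hRc : Continuous R := by
      have : R = fun x => ∑ i ∈ Finset.range (Q₁.divX.natDegree + 1),
          (Q₁.divX.coeff i).eval x * h x ^ i := by
        funext x
        rw [hR]
        exact ev_sum _ _ _
      rw [this]
      exact continuous_finsetSum _ fun i _ => (Polynomial.continuous _).mul (hs.continuous.pow i)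
    have E1 : ∀ᶠ x in 𝓝 x₀, |x - x₀| < δ := by
      have : Continuous fun x : ℝ => |x - x₀| := by fun_prop
      exact this.continuousAt.eventually_lt_const (by simpa using hδ)
    have E2 : ∀ᶠ x in 𝓝 x₀, |R x| < |R x₀| + 1 :=
      hRc.abs.continuousAt.eventually_lt_const (by linarith)
    have hb0 : 0 < |b.eval x₀| := abs_pos.2 hbd
    have E3 : ∀ᶠ x in 𝓝 x₀, |b.eval x₀| / 2 < |b.eval x| :=
      b.continuous.abs.continuousAt.eventually_const_lt (by linarith)
    have E4 : ∀ᶠ x in 𝓝 x₀, (|R x₀| + 1) * C * |x - x₀| < |b.eval x₀| / 2 := by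
      have : Continuous fun x : ℝ => (|R x₀| + 1) * C * |x - x₀| := by fun_prop
      exact this.continuousAt.eventually_lt_const (by simp only [sub_self, abs_zero, mul_zero]; linarith)
    have E5 : ∀ᶠ x in 𝓝 x₀, x ∈ Set.Ioo (x₀ - 1) (x₀ + 1) :=
      isOpen_Ioo.mem_nhds ⟨by linarith, by linarith⟩
    rw [hZ, mem_interior_iff_mem_nhds]
    filter_upwards [E1, E2, E3, E4, E5] with x e1 e2 e3 e4 e5
    show h x = 0
    by_contra hne0
    have hxne : x ≠ x₀ := fun hh => hne0 (hh ▸ hx0)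
    have hpos : 0 < |x - x₀| := abs_pos.2 (sub_ne_zero.2 hxne)
    have q1 : ev Q₁ x (h x) = 0 := by
      have h1 := hQx x e5
      rw [hQ₁, ev_mul] at h1
      rcases mul_eq_zero.1 h1 with h2 | h2
      · exfalso
        have : ev ((X : ℝ[X][X]) ^ m) x (h x) = h x ^ m := by simp [ev]
        rw [this] at h2
        exact pow_ne_zero m hne0 h2
      · exact h2
    have q2 : ev Q₁ x (h x) = R x * h x + (Q₁.coeff 0).eval x := by
      conv_lhs => rw [← Polynomial.divX_mul_X_add Q₁]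
      simp [ev, hR, Polynomial.eval₂_add, Polynomial.eval₂_mul]
    have q3 : (Q₁.coeff 0).eval x = (x - x₀) ^ N * b.eval x := by
      conv_lhs => rw [hb]
      simp
    have q4 : |(x - x₀) ^ N * b.eval x| = |R x| * |h x| := by
      rw [← q3, ← abs_mul]
      have : (Q₁.coeff 0).eval x = - (R x * h x) := by linarith
      rw [this, abs_neg]
    rw [abs_mul, abs_pow] at q4
    have q5 := hfl x e1
    have hpN : 0 < |x - x₀| ^ N := pow_pos hpos N
    have q6 : |R x| * |h x| ≤ (|R x₀| + 1) * (C * |x - x₀| ^ (N + 1)) :=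
      mul_le_mul e2.le q5 (abs_nonneg _) (by positivity)
    have q7 : |x - x₀| ^ N * (|b.eval x₀| / 2) < |x - x₀| ^ N * |b.eval x| :=
      mul_lt_mul_of_pos_left e3 hpN
    have q8 : (|R x₀| + 1) * (C * |x - x₀| ^ (N + 1)) =
        |x - x₀| ^ N * ((|R x₀| + 1) * C * |x - x₀|) := by ring
    have q9 : |x - x₀| ^ N * ((|R x₀| + 1) * C * |x - x₀|) < |x - x₀| ^ N * (|b.eval x₀| / 2) :=
      mul_lt_mul_of_pos_left e4 hpN
    linarith
  have huniv : Z = Set.univ := IsClopen.eq_univ ⟨hclosed, hopen⟩ hne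
  intro x
  have h8 : x ∈ Z := huniv ▸ Set.mem_univ x
  have h9 : x ∈ {x | h x = 0} := interior_subset h8
  exact h9

end Pool.Agent.H323.Semi
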