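import Pool.Agent.H323.Semi.Norm
import Pool.Agent.H323.Semi.Qa

/-!
# Smooth definable functions are affine
-/

namespace Pool.Agent.H323.Semi

open Polynomial Filter Topology Function Pool.Agent.H581R2
open scoped ContDiff

/-- the bivariate polynomial obtained by fixing all the variables but `0` and `1` -/
noncomputable def biv (w : ℕ → ℝ) (q : MvPolynomial ℕ ℚ) : ℝ[X][X] :=
  MvPolynomial.aeval (update (update (fun i => (C (C (w i)) : ℝ[X][X])) 0 (C X)) 1 X) q

lemma ev_biv (w : ℕ → ℝ) (q : MvPolynomial ℕ ℚ) (r s : ℝ) :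
    ev (biv w q) r s = MvPolynomial.aeval (update (update w 0 r) 1 s) q := by
  have key : ∀ P : ℝ[X][X], ev P r s = Polynomial.eval₂RingHom (Polynomial.evalRingHom r) s P :=
    fun P => rfl
  rw [key]
  induction q using MvPolynomial.induction_on with
  | C a =>
    simp only [biv, MvPolynomial.algHom_C]
    exact RingHom.map_rat_algebraMap _ a
  | add p q hp hq =>
    simp only [biv, map_add] at hp hq ⊢
    rw [hp, hq]
  | mul_X p i hp =>
    simp only [biv, map_mul] at hp ⊢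
    rw [hp]
    congr 1
    simp only [MvPolynomial.aeval_X]
    by_cases h1 : i = 1
    · subst h1; simp
    · by_cases h0 : i = 0
      · subst h0; simp
      · simp [h1, h0]

lemma ev_continuous_right (P : ℝ[X][X]) (r : ℝ) : Continuous fun s => ev P r s := by
  have : (fun s => ev P r s) = fun s => ∑ i ∈ Finset.range (P.natDegree + 1),
      (P.coeff i).eval r * s ^ i := funext fun s => ev_sum P r s
  rw [this]
  exact continuous_finsetSum _ fun i _ => continuous_const.mul (continuous_id.pow i)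

/-- A semialgebraic set contained in the graph of a function is algebraic. -/
lemma exists_poly {B : (ℕ → ℝ) → Prop} (hB : SAP B) (w : ℕ → ℝ) (φ : ℝ → ℝ)
    (hφ : ∀ r s, B (update (update w 0 r) 1 s) → s = φ r) :
    ∃ Q : ℝ[X][X], Q ≠ 0 ∧ ∀ r s, B (update (update w 0 r) 1 s) → ev Q r s = 0 := by
  classical
  obtain ⟨Qs, hQs⟩ := hB
  refine ⟨∏ q ∈ Qs.filter (fun q => biv w q ≠ 0), biv w q, ?_, fun r s hrs => ?_⟩
  · rw [Finset.prod_ne_zero_iff]
    intro q hq
    exact (Finset.mem_filter.1 hq).2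
  · by_contra hne
    rw [ev_prod] at hne
    replace hne := Finset.prod_ne_zero_iff.1 hne
    have hE : ∀ᶠ s' in 𝓝 s, ∀ q ∈ Qs, SignType.sign (ev (biv w q) r s) =
        SignType.sign (ev (biv w q) r s') := by
      rw [Filter.eventually_all_finset]
      intro q hq
      by_cases h0 : biv w q = 0
      · rw [h0]
        simp [ev]
      · have h1 := hne q (Finset.mem_filter.2 ⟨hq, h0⟩)
        have hc := (ev_continuous_right (biv w q) r).continuousAt (x := s)
        rcases lt_or_gt_of_ne h1 with h2 | h2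
        · filter_upwards [hc.eventually_lt_const h2] with s' hs'
          rw [sign_neg h2, sign_neg hs']
        · filter_upwards [hc.eventually_const_lt h2] with s' hs'
          rw [sign_pos h2, sign_pos hs']
    have hE2 : ∀ᶠ s' in 𝓝 s, s' = s := by
      filter_upwards [hE] with s' hs'
      have h3 : B (update (update w 0 r) 1 s') := by
        refine hQs (update (update w 0 r) 1 s) (update (update w 0 r) 1 s') (fun q hq => ?_) hrs
        rw [← ev_biv, ← ev_biv]
        exact hs' q hq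
      rw [hφ r s' h3, hφ r s hrs]
    have hE3 : ∀ᶠ s' in 𝓝[≠] s, s' = s := hE2.filter_mono nhdsWithin_le_nhds
    have hE4 : ∀ᶠ s' in 𝓝[≠] s, s' ≠ s := eventually_mem_nhdsWithin
    obtain ⟨s', h5, h6⟩ := (hE3.and hE4).exists
    exact h6 h5

/-- translation of a bivariate polynomial -/
noncomputable def sh (m n : ℝ) (Q : ℝ[X][X]) : ℝ[X][X] :=
  taylor (C (-n)) (Q.map (taylorAlgHom (-m) : ℝ[X] →ₐ[ℝ] ℝ[X]).toRingHom)

lemma sh_ne_zero {m n : ℝ} {Q : ℝ[X][X]} (hQ : Q ≠ 0) : sh m n Q ≠ 0 := by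
  intro h
  have h1 : Q.map (taylorAlgHom (-m) : ℝ[X] →ₐ[ℝ] ℝ[X]).toRingHom = 0 :=
    taylor_injective (C (-n)) (by rw [map_zero]; exact h)
  rw [Polynomial.map_eq_zero_iff] at h1
  · exact hQ h1
  · intro p q hpq
    exact taylor_injective (-m) hpq

lemma ev_sh (m n : ℝ) (Q : ℝ[X][X]) (x y : ℝ) : ev (sh m n Q) x y = ev Q (x - m) (y - n) := by
  have h1 : (Polynomial.evalRingHom x).comp (taylorAlgHom (-m) : ℝ[X] →ₐ[ℝ] ℝ[X]).toRingHom =
      Polynomial.evalRingHom (x - m) := by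
    refine RingHom.ext fun p => ?_
    show (taylor (-m) p).eval x = p.eval (x - m)
    rw [taylor_eval]
    congr 1
  rw [ev, sh, taylor_apply, Polynomial.eval₂_comp, Polynomial.eval₂_map, h1, ev]
  congr 1
  simp
  ring

lemma AlgOn.shift {a b p : ℝ} {h : ℝ → ℝ} (H : AlgOn (Set.Ioo (a + p) (b + p)) h) :
    AlgOn (Set.Ioo a b) (fun x => h (x + p)) := by
  obtain ⟨Q, hQ, hx⟩ := H
  refine ⟨sh (-p) 0 Q, sh_ne_zero hQ, fun x hx' => ?_⟩
  rw [ev_sh]
  have := hx (x + p) ⟨by linarith [hx'.1], by linarith [hx'.2]⟩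
  simpa using this

lemma ev_eq (Q : ℝ[X][X]) (x y : ℝ) : ev Q x y = (Q.eval (C y)).eval x := by
  rw [ev, Polynomial.eval₂_evalRingHom]

theorem smooth_definable_affine (f : ℝ → ℝ) (hf : ContDiff ℝ ∞ f) (hd : DefinableFun f) :
    ∃ a b : ℝ, ∀ x, f x = a * x + b := by
  classical
  obtain ⟨φ, v, hφ⟩ := hd
  obtain ⟨κ, hκ, A, B, hB, hP⟩ := good_sat φ
  have := Fintype.ofFinite κ
  set a : κ → ℤ → ℤ → Prop := fun k m n => A k (update (update (fl v) 0 m) 1 n) with ha
  set b : κ → ℝ → ℝ → Prop := fun k r s => B k (update (update (fr v) 0 r) 1 s) with hb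
  have hG : ∀ x y, f x = y ↔ ∃ k, a k ⌊x⌋ ⌊y⌋ ∧ b k (Int.fract x) (Int.fract y) := by
    intro x y
    rw [hφ x y, hP]
    simp only [fl_update, fr_update, ha, hb]
  have F1 : ∀ k m n r s, a k m n → b k r s → 0 ≤ r → r < 1 → 0 ≤ s → s < 1 →
      f (m + r) = n + s := by
    intro k m n r s h1 h2 hr0 hr1 hs0 hs1
    rw [hG]
    have e1 : ⌊(m : ℝ) + r⌋ = m := by rw [Int.floor_eq_iff]; constructor <;> linarith
    have e2 : ⌊(n : ℝ) + s⌋ = n := by rw [Int.floor_eq_iff]; constructor <;> linarith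
    have e3 : Int.fract ((m : ℝ) + r) = r := by rw [Int.fract_eq_iff]; exact ⟨hr0, hr1, m, by ring⟩
    have e4 : Int.fract ((n : ℝ) + s) = s := by rw [Int.fract_eq_iff]; exact ⟨hs0, hs1, n, by ring⟩
    refine ⟨k, ?_, ?_⟩
    · rw [e1, e2]; exact h1
    · rw [e3, e4]; exact h2
  -- algebraicity modulo the integers
  have hQk : ∀ k, ∃ Q : ℝ[X][X], Q ≠ 0 ∧ ∀ x, a k ⌊x⌋ ⌊f x⌋ → b k (Int.fract x) (Int.fract (f x)) →
      ev Q (Int.fract x) (Int.fract (f x)) = 0 := by
    intro k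
    by_cases hk : ∃ m n, a k m n
    · obtain ⟨m, n, hmn⟩ := hk
      have hSA : SAP (fun u : ℕ → ℝ => B k u ∧ (0 ≤ u 0 ∧ u 0 < 1) ∧ (0 ≤ u 1 ∧ u 1 < 1)) :=
        (hB k).and (((SAP.le PF.zero (PF.coord 0)).and (SAP.lt (PF.coord 0) PF.one)).and
          ((SAP.le PF.zero (PF.coord 1)).and (SAP.lt (PF.coord 1) PF.one)))
      obtain ⟨Q, hQ, hQx⟩ := exists_poly hSA (fr v) (fun r => f (m + r) - n) (by
        rintro r s ⟨h1, h2, h3⟩
        simp only [update_self, ne_eq, zero_ne_one, not_false_eq_true, update_of_ne] at h2 h3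
        have := F1 k m n r s hmn h1 h2.1 h2.2 h3.1 h3.2
        linarith)
      refine ⟨Q, hQ, fun x _ hbx => hQx _ _ ⟨hbx, ?_, ?_⟩⟩
      · simp only [update_self, ne_eq, zero_ne_one, not_false_eq_true, update_of_ne]
        exact ⟨Int.fract_nonneg _, Int.fract_lt_one _⟩
      · simp only [update_self, ne_eq, zero_ne_one, not_false_eq_true, update_of_ne]
        exact ⟨Int.fract_nonneg _, Int.fract_lt_one _⟩
    · exact ⟨1, one_ne_zero, fun x h1 _ => absurd ⟨_, _, h1⟩ hk⟩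
  choose Qk hQk0 hQkx using hQk
  have hQall : ∀ x, ev (∏ k, Qk k) (Int.fract x) (Int.fract (f x)) = 0 := by
    intro x
    obtain ⟨k, h1, h2⟩ := (hG x (f x)).1 rfl
    rw [ev_prod]
    exact Finset.prod_eq_zero (Finset.mem_univ k) (hQkx k x h1 h2)
  have hQ0 : (∏ k, Qk k) ≠ 0 := Finset.prod_ne_zero_iff.2 fun k _ => hQk0 k
  -- algebraicity on bounded intervals
  have hAlg : ∀ α β : ℝ, AlgOn (Set.Ioo α β) f := by
    intro α β
    obtain ⟨K, hK⟩ := (isCompact_Icc (a := α) (b := β)).exists_bound_of_continuousOn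
      hf.continuous.continuousOn
    refine ⟨∏ m ∈ Finset.Icc ⌊α⌋ ⌊β⌋, ∏ n ∈ Finset.Icc ⌊-K⌋ ⌊K⌋, sh m n (∏ k, Qk k), ?_,
      fun x hx => ?_⟩
    · exact Finset.prod_ne_zero_iff.2 fun m _ => Finset.prod_ne_zero_iff.2 fun n _ =>
        sh_ne_zero hQ0
    · rw [ev_prod]
      refine Finset.prod_eq_zero (i := ⌊x⌋) (Finset.mem_Icc.2 ⟨Int.floor_le_floor hx.1.le,
        Int.floor_le_floor hx.2.le⟩) ?_
      rw [ev_prod]
      have hKx := abs_le.1 (hK x ⟨hx.1.le, hx.2.le⟩)
      refine Finset.prod_eq_zero (i := ⌊f x⌋) (Finset.mem_Icc.2 ⟨Int.floor_le_floor hKx.1,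
        Int.floor_le_floor hKx.2⟩) ?_
      rw [ev_sh]
      exact hQall x
  -- pigeonhole
  set n₀ := Fintype.card κ + 1 with hn₀
  have hpig : ∀ r : ℝ, ∃ ij : {ij : Fin n₀ × Fin n₀ // ij.1 < ij.2},
      ∃ z : ℤ, (z : ℝ) = f (r + ((ij.1.2 : ℕ) : ℝ)) - f (r + ((ij.1.1 : ℕ) : ℝ)) := by
    intro r
    have hk : ∀ i : Fin n₀, ∃ k, a k ⌊r + ((i : ℕ) : ℝ)⌋ ⌊f (r + ((i : ℕ) : ℝ))⌋ ∧
        b k (Int.fract (r + ((i : ℕ) : ℝ))) (Int.fract (f (r + ((i : ℕ) : ℝ)))) :=
      fun i => (hG _ _).1 rfl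
    choose k hk1 hk2 using hk
    have hcard : Fintype.card κ < Fintype.card (Fin n₀) := by
      rw [Fintype.card_fin]; omega
    have key : ∀ i j : Fin n₀, k i = k j →
        f (r + ((i : ℕ) : ℝ)) = ⌊f (r + ((i : ℕ) : ℝ))⌋ + Int.fract (f (r + ((j : ℕ) : ℝ))) := by
      intro i j hij
      have h1 := hk1 i
      have h2 := hk2 j
      rw [← hij] at h2
      have h3 := F1 _ _ _ _ _ h1 h2 (Int.fract_nonneg _) (Int.fract_lt_one _)
        (Int.fract_nonneg _) (Int.fract_lt_one _)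
      have e1 : Int.fract (r + ((j : ℕ) : ℝ)) = Int.fract (r + ((i : ℕ) : ℝ)) := by
        rw [Int.fract_add_natCast, Int.fract_add_natCast]
      rw [e1, Int.floor_add_fract] at h3
      exact h3
    obtain ⟨i, j, hne, hij⟩ := Fintype.exists_ne_map_eq_of_card_lt k hcard
    rcases lt_or_gt_of_ne hne with hlt | hlt
    · refine ⟨⟨(i, j), hlt⟩, ⌊f (r + ((j : ℕ) : ℝ))⌋ - ⌊f (r + ((i : ℕ) : ℝ))⌋, ?_⟩
      have h1 := key i j hij
      have h2 := Int.floor_add_fract (f (r + ((j : ℕ) : ℝ)))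
      push_cast
      linarith
    · refine ⟨⟨(j, i), hlt⟩, ⌊f (r + ((i : ℕ) : ℝ))⌋ - ⌊f (r + ((j : ℕ) : ℝ))⌋, ?_⟩
      have h1 := key j i hij.symm
      have h2 := Int.floor_add_fract (f (r + ((i : ℕ) : ℝ)))
      push_cast
      linarith
  have hcont : ∀ i : ℕ, Continuous fun r : ℝ => f (r + (i : ℝ)) := fun i =>
    hf.continuous.comp (continuous_id.add continuous_const)
  obtain ⟨⟨⟨i, j⟩, hij⟩, hint⟩ := nonempty_interior_of_iUnion_of_closed
    (f := fun ij : {ij : Fin n₀ × Fin n₀ // ij.1 < ij.2} =>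
      {r : ℝ | ∃ z : ℤ, (z : ℝ) = f (r + ((ij.1.2 : ℕ) : ℝ)) - f (r + ((ij.1.1 : ℕ) : ℝ))})
    (fun ij => by
      have h1 : IsClosed (Set.range ((↑) : ℤ → ℝ)) := Int.isClosedEmbedding_coe_real.isClosed_range
      exact h1.preimage ((hcont (ij.1.2 : ℕ)).sub (hcont (ij.1.1 : ℕ))))
    (Set.eq_univ_of_forall fun r => by
      obtain ⟨ij, hz⟩ := hpig r
      exact Set.mem_iUnion.2 ⟨ij, hz⟩)
  obtain ⟨r₀, hr₀⟩ := hint
  rw [mem_interior_iff_mem_nhds, Metric.mem_nhds_iff] at hr₀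
  obtain ⟨ε, hε, hball⟩ := hr₀
  simp only at hij hball
  set D : ℝ → ℝ := fun r => f (r + ((j : ℕ) : ℝ)) - f (r + ((i : ℕ) : ℝ)) with hD
  have hDc : Continuous D := (hcont j).sub (hcont i)
  have hDz : ∀ r ∈ Set.Ioo (r₀ - ε) (r₀ + ε), ∃ z : ℤ, (z : ℝ) = D r := by
    intro r hr
    rw [← Real.ball_eq_Ioo] at hr
    exact hball hr
  have hDconst : ∀ r ∈ Set.Ioo (r₀ - ε) (r₀ + ε), D r = D r₀ := by
    intro r hr
    by_contra hne
    obtain ⟨z, hz⟩ := hDz r hr
    obtain ⟨z', hz'⟩ := hDz r₀ ⟨by linarith, by linarith⟩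
    have hzz : z ≠ z' := fun h => hne (by rw [← hz, ← hz', h])
    have hmem : ((min z z' : ℤ) : ℝ) + 1 / 2 ∈ Set.uIcc (D r) (D r₀) := by
      rw [← hz, ← hz', Set.mem_uIcc]
      rcases lt_or_gt_of_ne hzz with h | h
      · left
        rw [min_eq_left h.le]
        have : (z : ℝ) + 1 ≤ z' := by exact_mod_cast h
        constructor <;> linarith
      · right
        rw [min_eq_right h.le]
        have : (z' : ℝ) + 1 ≤ z := by exact_mod_cast h
        constructor <;> linarith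
    obtain ⟨r', hr', hDr'⟩ := intermediate_value_uIcc hDc.continuousOn hmem
    have hr'' : r' ∈ Set.Ioo (r₀ - ε) (r₀ + ε) := by
      rw [Set.mem_uIcc] at hr'
      rcases hr' with h | h
      · exact ⟨by linarith [h.1, hr.1], by linarith [h.2]⟩
      · exact ⟨by linarith [h.1], by linarith [h.2, hr.2]⟩
    obtain ⟨z'', hz''⟩ := hDz r' hr''
    rw [hDr'] at hz''
    have h2 : ((2 * z'' : ℤ) : ℝ) = ((2 * min z z' + 1 : ℤ) : ℝ) := by
      push_cast
      push_cast at hz''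
      linarith
    have h3 : 2 * z'' = 2 * min z z' + 1 := by exact_mod_cast h2
    omega
  -- the period
  set p : ℝ := ((j : ℕ) : ℝ) - ((i : ℕ) : ℝ) with hp
  have hp0 : 0 < p := by
    have : ((i : ℕ) : ℝ) < ((j : ℕ) : ℝ) := by exact_mod_cast hij
    rw [hp]; linarith
  set c : ℝ := D r₀ with hc
  have hper : ∀ x, f (x + p) - f x - c = 0 := by
    refine qa (h := fun x => f (x + p) - f x - c) ?_ ?_
      (u := r₀ - ε + ((i : ℕ) : ℝ)) (v := r₀ + ε + ((i : ℕ) : ℝ)) (by linarith) ?_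
    · exact ((hf.comp (contDiff_id.add contDiff_const)).sub hf).sub contDiff_const
    · intro α β
      have h1 := ((AlgOn.shift (p := p) (hAlg (α + p) (β + p))).sub (hAlg α β)).sub
        (AlgOn.poly (Set.Ioo α β) (C c))
      simpa using h1
    · intro x hx
      have h1 := hDconst (x - ((i : ℕ) : ℝ)) ⟨by linarith [hx.1], by linarith [hx.2]⟩
      have e1 : x - ((i : ℕ) : ℝ) + ((j : ℕ) : ℝ) = x + p := by rw [hp]; ring
      have e2 : x - ((i : ℕ) : ℝ) + ((i : ℕ) : ℝ) = x := by ring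
      simp only [hD, e1, e2] at h1
      rw [hc]
      simp only [hD]
      linarith
  set g : ℝ → ℝ := fun x => f x - c / p * x with hg
  have hgs : ContDiff ℝ ∞ g := hf.sub (contDiff_const.mul contDiff_id)
  have hgA : ∀ α β : ℝ, AlgOn (Set.Ioo α β) g := by
    intro α β
    have h1 := (hAlg α β).sub (AlgOn.poly (Set.Ioo α β) (C (c / p) * X))
    simpa using h1
  have hgp : ∀ x, g (x + p) = g x := by
    intro x
    have h1 := hper x
    simp only [hg]
    have h2 : c / p * (x + p) = c / p * x + c := by field_simp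
    rw [h2]
    linarith
  have hgn : ∀ (n : ℕ) x, g (x + n * p) = g x := by
    intro n
    induction n with
    | zero => intro x; simp
    | succ n ih =>
      intro x
      have : x + ((n + 1 : ℕ) : ℝ) * p = (x + n * p) + p := by push_cast; ring
      rw [this, hgp, ih]
  obtain ⟨Q, hQ, hQx⟩ := hgA 0 1
  have hH : ∀ x, ev Q x (g x) = 0 := by
    refine qa (h := fun x => ev Q x (g x)) ?_ (fun α β => (hgA α β).ev Q) (u := 0) (v := 1)
      one_pos hQx
    have : (fun x => ev Q x (g x)) = fun x => ∑ i ∈ Finset.range (Q.natDegree + 1),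
        (Q.coeff i).eval x * g x ^ i := funext fun x => ev_sum Q x _
    rw [this]
    refine ContDiff.sum fun i _ => ContDiff.mul ?_ (hgs.pow i)
    have h1 := Polynomial.contDiff_aeval (𝕜 := ℝ) (Q.coeff i) ∞
    simpa [Polynomial.aeval_def] using h1
  have hroot : ∀ x, Q.IsRoot (C (g x)) := by
    intro x
    show Q.eval (C (g x)) = 0
    refine Polynomial.eq_zero_of_infinite_isRoot _ ?_
    have hinj : Function.Injective fun n : ℕ => x + n * p := by
      intro m n hmn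
      have h1 : (m : ℝ) * p = n * p := by simpa using hmn
      have h2 := mul_right_cancel₀ hp0.ne' h1
      exact_mod_cast h2
    refine (Set.infinite_range_of_injective hinj).mono ?_
    rintro _ ⟨n, rfl⟩
    show (Q.eval (C (g x))).eval (x + n * p) = 0
    rw [← ev_eq]
    have := hH (x + n * p)
    rwa [hgn] at this
  have hfin : (Set.range g).Finite := by
    have h1 : {y : ℝ[X] | Q.IsRoot y}.Finite := Polynomial.finite_setOfPred_isRoot hQ
    refine (h1.preimage (Polynomial.C_injective.injOn)).subset ?_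
    rintro _ ⟨x, rfl⟩
    exact hroot x
  have hsub : ¬ (Set.range g).Nontrivial := fun hnt =>
    ((isPreconnected_range hgs.continuous).infinite_of_nontrivial hnt) hfin
  rw [Set.not_nontrivial_iff] at hsub
  refine ⟨c / p, g 0, fun x => ?_⟩
  have h1 : g x = g 0 := hsub ⟨x, rfl⟩ ⟨0, rfl⟩
  have h2 : g x = f x - c / p * x := rfl
  linarith

end Pool.Agent.H323.Semi
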