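import Pool.Agent.H581R2.QE
import Pool.Agent.H323.Semi.Defs

/-!
# Definable predicates of `(ℝ, <, +, ·|(0,1)², ℤ)`: normal form
-/

namespace Pool.Agent.H323.Semi

open Pool.Agent.H581R2 Function

/-- coordinatewise floor -/
noncomputable def fl (v : ℕ → ℝ) : ℕ → ℤ := fun i => ⌊v i⌋

/-- coordinatewise fractional part -/
noncomputable def fr (v : ℕ → ℝ) : ℕ → ℝ := fun i => Int.fract (v i)

/-- finite unions of products of an arbitrary condition on the integer parts and a semialgebraic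
condition on the fractional parts -/
def Good (P : (ℕ → ℝ) → Prop) : Prop :=
  ∃ (κ : Type) (_ : Finite κ) (A : κ → (ℕ → ℤ) → Prop) (B : κ → (ℕ → ℝ) → Prop),
    (∀ k, SAP (B k)) ∧ ∀ v, P v ↔ ∃ k, A k (fl v) ∧ B k (fr v)

lemma Good.congr {P Q : (ℕ → ℝ) → Prop} (h : Good P) (e : ∀ v, Q v ↔ P v) : Good Q := by
  obtain ⟨κ, hκ, A, B, hB, hP⟩ := h
  exact ⟨κ, hκ, A, B, hB, fun v => (e v).trans (hP v)⟩

lemma Good.ofA (A : (ℕ → ℤ) → Prop) : Good (fun v => A (fl v)) :=
  ⟨Unit, inferInstance, fun _ => A, fun _ _ => True, fun _ => SAP.const True, fun v => by simp⟩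

lemma Good.ofB {B : (ℕ → ℝ) → Prop} (hB : SAP B) : Good (fun v => B (fr v)) :=
  ⟨Unit, inferInstance, fun _ _ => True, fun _ => B, fun _ => hB, fun v => by simp⟩

lemma Good.and {P Q : (ℕ → ℝ) → Prop} (hP : Good P) (hQ : Good Q) :
    Good (fun v => P v ∧ Q v) := by
  obtain ⟨κ, hκ, A, B, hB, hP⟩ := hP
  obtain ⟨κ', hκ', A', B', hB', hQ⟩ := hQ
  refine ⟨κ × κ', inferInstance, fun k z => A k.1 z ∧ A' k.2 z, fun k r => B k.1 r ∧ B' k.2 r,
    fun k => (hB k.1).and (hB' k.2), fun v => ?_⟩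
  simp only [hP, hQ]
  constructor
  · rintro ⟨⟨k, h1, h2⟩, k', h3, h4⟩
    exact ⟨(k, k'), ⟨h1, h3⟩, h2, h4⟩
  · rintro ⟨⟨k, k'⟩, ⟨h1, h3⟩, h2, h4⟩
    exact ⟨⟨k, h1, h2⟩, k', h3, h4⟩

lemma Good.not {P : (ℕ → ℝ) → Prop} (hP : Good P) : Good (fun v => ¬ P v) := by
  classical
  obtain ⟨κ, hκ, A, B, hB, hP⟩ := hP
  have := Fintype.ofFinite κ
  refine ⟨Set κ, inferInstance, fun S z => ∀ k ∈ S, ¬ A k z, fun S r => ∀ k ∈ Finset.univ,
    k ∉ S → ¬ B k r, fun S => ?_, fun v => ?_⟩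
  · exact SAP.forall_mem _ fun k _ => (SAP.const (k ∉ S)).imp (hB k).not
  · simp only [hP]
    constructor
    · intro h
      refine ⟨{k | ¬ A k (fl v)}, fun k hk => hk, fun k _ hk hb => h ⟨k, ?_, hb⟩⟩
      by_contra hc
      exact hk hc
    · rintro ⟨S, h1, h2⟩ ⟨k, h3, h4⟩
      by_cases hk : k ∈ S
      · exact h1 k hk h3
      · exact h2 k (Finset.mem_univ k) hk h4

lemma Good.or {P Q : (ℕ → ℝ) → Prop} (hP : Good P) (hQ : Good Q) :
    Good (fun v => P v ∨ Q v) :=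
  (hP.not.and hQ.not).not.congr fun v => by tauto

lemma fl_update (v : ℕ → ℝ) (i : ℕ) (t : ℝ) : fl (update v i t) = update (fl v) i ⌊t⌋ := by
  funext j
  by_cases h : j = i
  · subst h; simp [fl]
  · simp [fl, h]

lemma fr_update (v : ℕ → ℝ) (i : ℕ) (t : ℝ) :
    fr (update v i t) = update (fr v) i (Int.fract t) := by
  funext j
  by_cases h : j = i
  · subst h; simp [fr]
  · simp [fr, h]

lemma Good.ex (i : ℕ) {P : (ℕ → ℝ) → Prop} (hP : Good P) :
    Good (fun v => ∃ t, P (update v i t)) := by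
  obtain ⟨κ, hκ, A, B, hB, hP⟩ := hP
  refine ⟨κ, hκ, fun k z => ∃ n : ℤ, A k (update z i n),
    fun k r => ∃ s, 0 ≤ s ∧ s < 1 ∧ B k (update r i s), fun k => ?_, fun v => ?_⟩
  · have h1 : SAP (fun w : Option ℕ → ℝ => 0 ≤ w none ∧ w none < 1 ∧
        B k (update (fun j => w (some j)) i (w none))) := by
      refine (SAP.le PF.zero (PF.coord none)).and ((SAP.lt (PF.coord none) PF.one).and ?_)
      refine SAP.preimage (hB k) (φ := fun w : Option ℕ → ℝ =>
        update (fun j => w (some j)) i (w none)) fun j => ?_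
      by_cases h : j = i
      · subst h
        simpa using PF.coord (none : Option ℕ)
      · simpa [h] using PF.coord (some j)
    exact (SAP.exists_real h1).congr fun v => Iff.rfl
  · constructor
    · rintro ⟨t, ht⟩
      obtain ⟨k, h1, h2⟩ := (hP _).1 ht
      rw [fl_update] at h1
      rw [fr_update] at h2
      exact ⟨k, ⟨_, h1⟩, _, Int.fract_nonneg t, Int.fract_lt_one t, h2⟩
    · rintro ⟨k, ⟨n, h1⟩, s, h0, hs, h2⟩
      refine ⟨n + s, (hP _).2 ⟨k, ?_, ?_⟩⟩
      · rw [fl_update]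
        have : ⌊(n : ℝ) + s⌋ = n := by
          rw [Int.floor_eq_iff]
          constructor <;> linarith
        rwa [this]
      · rw [fr_update]
        have : Int.fract ((n : ℝ) + s) = s := by
          rw [Int.fract_eq_iff]
          exact ⟨h0, hs, n, by ring⟩
        rwa [this]

lemma good_sat : ∀ φ : Fm, Good (Sat φ) := by
  intro φ
  induction φ with
  | lt i j =>
    refine ((Good.ofA fun z => z i < z j).or ((Good.ofA fun z => z i = z j).and
      (Good.ofB (SAP.lt (PF.coord i) (PF.coord j))))).congr fun v => ?_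
    simp only [Sat, fl, fr]
    have h1 := Int.floor_add_fract (v i)
    have h2 := Int.floor_add_fract (v j)
    have h3 := Int.fract_nonneg (v i)
    have h4 := Int.fract_nonneg (v j)
    have h5 := Int.fract_lt_one (v i)
    have h6 := Int.fract_lt_one (v j)
    constructor
    · intro h
      rcases (Int.floor_le_floor h.le).lt_or_eq with h7 | h7
      · exact Or.inl h7
      · refine Or.inr ⟨h7, ?_⟩
        have : ((⌊v i⌋ : ℤ) : ℝ) = ⌊v j⌋ := by exact_mod_cast h7
        linarith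
    · rintro (h | ⟨h, h'⟩)
      · have : ((⌊v i⌋ : ℤ) : ℝ) + 1 ≤ ⌊v j⌋ := by exact_mod_cast h
        linarith
      · have : ((⌊v i⌋ : ℤ) : ℝ) = ⌊v j⌋ := by exact_mod_cast h
        linarith
  | eq i j =>
    refine ((Good.ofA fun z => z i = z j).and
      (Good.ofB (SAP.eq (PF.coord i) (PF.coord j)))).congr fun v => ?_
    simp only [Sat, fl, fr]
    have h1 := Int.floor_add_fract (v i)
    have h2 := Int.floor_add_fract (v j)
    constructor
    · intro h
      rw [h]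
      exact ⟨rfl, rfl⟩
    · rintro ⟨h, h'⟩
      rw [← h1, ← h2, h, h']
  | add i j k =>
    refine (((Good.ofA fun z => z i + z j = z k).and
      (Good.ofB (SAP.eq ((PF.coord i).add (PF.coord j)) (PF.coord k)))).or
      ((Good.ofA fun z => z i + z j + 1 = z k).and
      (Good.ofB (SAP.eq ((PF.coord i).add (PF.coord j)) ((PF.coord k).add PF.one))))).congr
        fun v => ?_
    simp only [Sat, fl, fr]
    have h1 := Int.floor_add_fract (v i)
    have h2 := Int.floor_add_fract (v j)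
    have h0 := Int.floor_add_fract (v k)
    have h3 := Int.fract_nonneg (v i)
    have h4 := Int.fract_nonneg (v j)
    have h5 := Int.fract_lt_one (v i)
    have h6 := Int.fract_lt_one (v j)
    have h7 := Int.fract_nonneg (v k)
    have h8 := Int.fract_lt_one (v k)
    constructor
    · intro h
      have e : ((⌊v k⌋ - ⌊v i⌋ - ⌊v j⌋ : ℤ) : ℝ) =
          Int.fract (v i) + Int.fract (v j) - Int.fract (v k) := by
        push_cast
        linarith
      have l1 : (-1 : ℝ) < ((⌊v k⌋ - ⌊v i⌋ - ⌊v j⌋ : ℤ) : ℝ) := by rw [e]; linarith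
      have l2 : ((⌊v k⌋ - ⌊v i⌋ - ⌊v j⌋ : ℤ) : ℝ) < 2 := by rw [e]; linarith
      have l1' : (-1 : ℤ) < ⌊v k⌋ - ⌊v i⌋ - ⌊v j⌋ := by exact_mod_cast l1
      have l2' : ⌊v k⌋ - ⌊v i⌋ - ⌊v j⌋ < (2 : ℤ) := by exact_mod_cast l2
      have : ⌊v k⌋ - ⌊v i⌋ - ⌊v j⌋ = 0 ∨ ⌊v k⌋ - ⌊v i⌋ - ⌊v j⌋ = 1 := by omega
      rcases this with h9 | h9
      · left
        refine ⟨by omega, ?_⟩
        rw [h9] at e
        push_cast at e
        linarith
      · right
        refine ⟨by omega, ?_⟩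
        rw [h9] at e
        push_cast at e
        linarith
    · rintro (⟨h, h'⟩ | ⟨h, h'⟩)
      · have : ((⌊v i⌋ : ℤ) : ℝ) + ⌊v j⌋ = ⌊v k⌋ := by exact_mod_cast h
        linarith
      · have : ((⌊v i⌋ : ℤ) : ℝ) + ⌊v j⌋ + 1 = ⌊v k⌋ := by exact_mod_cast h
        linarith
  | mul i j k =>
    refine ((Good.ofA fun z => z i = 0 ∧ z j = 0 ∧ z k = 0).and
      (Good.ofB ((SAP.lt PF.zero (PF.coord i)).and ((SAP.lt PF.zero (PF.coord j)).and
        (SAP.eq ((PF.coord i).mul (PF.coord j)) (PF.coord k)))))).congr fun v => ?_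
    simp only [Sat, fl, fr]
    constructor
    · rintro ⟨h1, h2, h3, h4, h5⟩
      have e1 : ⌊v i⌋ = 0 := by rw [Int.floor_eq_zero_iff]; exact ⟨h1.le, h2⟩
      have e2 : ⌊v j⌋ = 0 := by rw [Int.floor_eq_zero_iff]; exact ⟨h3.le, h4⟩
      have e3 : ⌊v k⌋ = 0 := by
        rw [Int.floor_eq_zero_iff, ← h5]
        refine ⟨by positivity, ?_⟩
        nlinarith
      refine ⟨⟨e1, e2, e3⟩, ?_⟩
      simp only [Int.fract, e1, e2, e3, Int.cast_zero, sub_zero]
      exact ⟨h1, h3, h5⟩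
    · rintro ⟨⟨e1, e2, e3⟩, h1, h3, h5⟩
      have l1 := Int.fract_lt_one (v i)
      have l2 := Int.fract_lt_one (v j)
      simp only [Int.fract, e1, e2, e3, Int.cast_zero, sub_zero] at h1 h3 h5 l1 l2
      exact ⟨h1, l1, h3, l2, h5⟩
  | int i =>
    refine (Good.ofB (SAP.eq_zero (PF.coord i))).congr fun v => ?_
    simp only [Sat, fr]
    rw [Int.fract_eq_zero_iff]
    constructor
    · rintro ⟨n, hn⟩
      exact ⟨n, hn.symm⟩
    · rintro ⟨n, hn⟩
      exact ⟨n, hn.symm⟩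
  | not φ ih => exact ih.not
  | and φ ψ ih1 ih2 => exact ih1.and ih2
  | ex i φ ih => exact ih.ex i

end Pool.Agent.H323.Semi
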